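import Mathlib
import Pool.Agent.H594.WI.One
import Pool.Agent.H594.KP.Dual
import Pool.Agent.H594.KP.Conv
import Pool.Graph.R_seed8.H340R2.LW

/-!
# `(δ f(z) π)^(δ f(z) π)` and `(δ f(z) π)^π` for all algebraic factors `δ` of small height

Is `π^π` irrational? We consider the numbers `(α π)^(β π^j)` with algebraic `α`, `β ≠ 0` (the
question is about `α = β = j = 1`), and the values `α = f(z)` of a rational function `f` with
algebraic coefficients at all algebraic numbers `z` of degree at most `d` over a number field, and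
we show that no value `f(z)` is close to an exceptional `α` with respect to the height: for all but
finitely many `z`, the numbers `(δ f(z) π)^(β π^j)` are transcendental for ALL algebraic numbers
`δ ≠ 0` (of any degree) of height at most `κ h(z)`, for every `κ < M - 2 d m m' / (m + m')`. Here
`M` is the degree of `f` and all zeros and poles on the projective line have multiplicity at most
`m` and `m'`, respectively. For a polynomial `f` and algebraic integers `z` every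
`κ < M - (2 d - 1) m` is admissible. For instance all numbers `P = δ n (n + 1) ⋯ (n + k - 1) π` with
`n` large and `h(δ) ≤ κ log n`, `κ < k - 1`, are such that `P^P` and `P^π` are transcendental. The
results are proved for all products `e^(x_0) (α e^w)^(x_1)` whose exponents are quotients of
polynomials of bounded degree in given numbers, `x_1` transcendental, and `k - 1` is the best
possible constant.

By the theorem of Waldschmidt and Roy on points of hyperplanes with coordinates in the space of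
linear forms in logarithms (starting files `Pool.Agent.W254.HP`) the exceptional `α` lie in a group
`Γ` of finite rank. So we need lower bounds for the heights of `f(z) / u`, for all `u` in `Γ`. The
places at which the elements of `Γ` are not units are treated with Wirsing's theorem (a theorem of
the library), and the balance between zeros and poles gives the constant.
-/

set_option autoImplicit false

namespace Pool.Agent.Results.MP_4c2ad3_nt.MultiplesOfSmallHeight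

open Pool.Agent.H594.ML
open Pool.Agent.H594.KP (powers_main)
open Pool.Agent.H594.BD (degLe_alg)
open Pool.Agent.Helper259.AbsHt (Qbar)
open Pool.Agent.Y215.SK (DivHull h1)
open Pool.Agent.H340R2.LW (transcendental_pi)
open Real (pi)

/-- The absolute logarithmic height of an algebraic number `z`. (The image of the embedding `sg` of
an algebraic closure of `ℚ` consists of the algebraic numbers, and `h1 a` is the absolute
logarithmic height of `a`; for transcendental `z` the value has no meaning. See part (0) of the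
theorem.) -/
noncomputable def ht (z : ℂ) : ℝ := h1 (Function.invFun sg z)

/-- The linear combinations, with algebraic coefficients, of `1` and of logarithms of algebraic
numbers. -/
noncomputable def LogForms : Submodule (algebraicClosure ℚ ℂ) ℂ :=
  Submodule.span (algebraicClosure ℚ ℂ) ({1} ∪ {z : ℂ | IsAlgebraic ℚ (Complex.exp z)})

/-- The numbers `e ^ z` with `z` in `LogForms`, i.e. the numbers `e ^ γ α_1 ^ β_1 ⋯ α_k ^ β_k` with
algebraic `γ`, `α_i ≠ 0`, `β_i`. All nonzero algebraic numbers are of this form. -/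
def Prods : Set ℂ := {x | ∃ z ∈ LogForms, Complex.exp z = x}

/-- The tuples `(A_0(t) / Q(t), ..., A_k(t) / Q(t))` with polynomials `A_j`, `Q` with algebraic
coefficients and of degree at most `D` in each variable, `Q(t) ≠ 0`. -/
def quots {r : ℕ} (t : Fin r → ℂ) (D k : ℕ) : Set (Fin (k + 1) → ℂ) :=
  {x | ∃ (A : Fin (k + 1) → MvPolynomial (Fin r) (algebraicClosure ℚ ℂ))
    (Q : MvPolynomial (Fin r) (algebraicClosure ℚ ℂ)), (∀ j i, (A j).degreeOf i ≤ D) ∧
    (∀ i, Q.degreeOf i ≤ D) ∧ MvPolynomial.aeval t Q ≠ 0 ∧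
    ∀ j, x j = MvPolynomial.aeval t (A j) / MvPolynomial.aeval t Q}

/-- The exceptional multipliers: the algebraic numbers `α` such that for some logarithm `l` of `α`
and some `(x_0, x_1)` in `quots t D 1` with `x_1` transcendental the number
`e ^ (x_0) e ^ (x_1 (l + w))` is in `Prods`. -/
def Exc {r : ℕ} (t : Fin r → ℂ) (D : ℕ) (w : ℂ) : Set ℂ :=
  {α | IsAlgebraic ℚ α ∧ ∃ l : ℂ, Complex.exp l = α ∧ ∃ x ∈ quots t D 1,
    Transcendental ℚ (x 1) ∧ Complex.exp (x 0) * Complex.exp (x 1 * (l + w)) ∈ Prods}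

/-- all values of the powers `(α π) ^ (β π ^ j)` with algebraic `β ≠ 0` and `1 ≤ j ≤ J` are
transcendental -/
def AllTranscendental (J : ℕ) (α : ℂ) : Prop :=
  ∀ β : ℂ, IsAlgebraic ℚ β → β ≠ 0 → ∀ j : ℕ, 1 ≤ j → j ≤ J → ∀ l : ℂ, Complex.exp l = α →
    Transcendental ℚ (Complex.exp (β * ((pi : ℝ) : ℂ) ^ j * (l + ((Real.log pi : ℝ) : ℂ))))

/-- the polynomials all of whose coefficients are algebraic numbers, not zero -/
def AlgPoly : Set (Polynomial ℂ) := {P | P ≠ 0 ∧ ∀ i, IsAlgebraic ℚ (P.coeff i)}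

/-- the algebraic numbers of degree at most `d` over `K` -/
def DegLe (K : IntermediateField ℚ ℂ) (d : ℕ) : Set ℂ :=
  {z | ∃ P : Polynomial ℂ, P ≠ 0 ∧ P.natDegree ≤ d ∧ (∀ i, P.coeff i ∈ K) ∧ P.eval z = 0}

/-- All zeros of `A / B` (`A`, `B` without common zeros) on the projective line have multiplicity at
most `m`. (The order of the zero at infinity is the difference of the degrees.) -/
def ZerosLe (A B : Polynomial ℂ) (m : ℕ) : Prop :=
  (∀ a, A.rootMultiplicity a ≤ m) ∧ B.natDegree - A.natDegree ≤ m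

theorem ht_sg (y : Qbar) : ht (sg y) = h1 y := by
  unfold ht
  rw [Function.leftInverse_invFun sg_inj y]

theorem ht_nonneg (z : ℂ) : 0 ≤ ht z := Pool.Agent.Y215.SK.h1_nonneg _

theorem ht_eq (z : ℂ) : ht z = Pool.Agent.H594.WI.ht z := rfl

/-- the height in terms of Mathlib's height of the elements of number fields -/
theorem ht_field (L : Type) [Field L] [NumberField L] (φ : L →+* ℂ) (y : L) :
    ht (φ y) = Height.logHeight₁ y / Module.finrank ℚ L := by
  have halg : ∀ x : L, IsAlgebraic ℚ (φ x) := by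
    intro x
    have h1 : IsAlgebraic ℚ x := Algebra.IsAlgebraic.isAlgebraic x
    exact h1.algHom φ.toRatAlgHom
  choose f hf using fun x => exists_sg (halg x)
  let ψ : L →+* Qbar :=
    { toFun := f
      map_one' := sg_inj (by rw [hf, map_one, map_one])
      map_mul' := fun x y => sg_inj (by rw [hf, map_mul, map_mul, hf, hf])
      map_zero' := sg_inj (by rw [hf, map_zero, map_zero])
      map_add' := fun x y => sg_inj (by rw [hf, map_add, map_add, hf, hf]) }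
  have h1 : φ y = sg (ψ y) := (hf y).symm
  rw [h1, ht_sg, Pool.Agent.Y215.SK.h1_eq L ψ y]

theorem ht_rat (q : ℚ) : ht (q : ℂ) = Height.logHeight₁ q := by
  have h := ht_field ℚ (algebraMap ℚ ℂ) q
  rw [Module.finrank_self, Nat.cast_one, div_one] at h
  exact h

theorem ht_nat {n : ℕ} (hn : n ≠ 0) : ht (n : ℂ) = Real.log n := by
  have h := ht_rat n
  have : NeZero n := ⟨hn⟩
  rw [Rat.logHeight₁_natCast n] at h
  exact_mod_cast h

theorem alg_lt {w : ℂ} (h : IsAlgebraic ℚ (Complex.exp w)) : w ∈ LogForms :=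
  Submodule.subset_span (Or.inr h)

theorem alg_prods {x : ℂ} (hx : IsAlgebraic ℚ x) (hx0 : x ≠ 0) : x ∈ Prods := by
  refine ⟨Complex.log x, ?_, Complex.exp_log hx0⟩
  refine alg_lt ?_
  rwa [Complex.exp_log hx0]

theorem prods_lt {w : ℂ} (h : Complex.exp w ∈ Prods) : w ∈ LogForms := by
  obtain ⟨z, hz, e⟩ := h
  exact Pool.Agent.HP778.mem_of_exp hz e.symm

/-- the exceptional multipliers are in a group of finite rank -/
theorem exc_hull {r : ℕ} (t : Fin r → ℂ) (D : ℕ) (w : ℂ) : ∃ Γ : Subgroup Qbarˣ, Γ.FG ∧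
    ∀ α ∈ Exc t D w, ∃ u ∈ DivHull Γ, α = sg (u : Qbarˣ) := by
  obtain ⟨Γ, hΓ, hmain⟩ := powers_main t D (k := 1) (fun _ => w)
  refine ⟨Γ, hΓ, ?_⟩
  rintro α ⟨hα, l, hl, x, ⟨A, Q, hA, hQ, hQ0, hx⟩, htr, hmem⟩
  have hα0 : α ≠ 0 := by
    rw [← hl]
    exact Complex.exp_ne_zero l
  obtain ⟨u, hu⟩ := exists_unit hα hα0
  by_contra hcon
  have hind : ∀ m : Fin 1 → ℤ, m ≠ 0 → ¬ ∃ v ∈ DivHull Γ, ∏ j, (fun _ : Fin 1 => α) j ^ m j = sg v := by
    rintro m hm ⟨v, hv, he⟩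
    have hm0 : m 0 ≠ 0 := by
      intro h0
      apply hm
      funext i
      rw [Subsingleton.elim i 0, h0]
      rfl
    rw [Fin.prod_univ_one] at he
    have h1 : u ^ (m 0) = v := by
      apply sgu_inj
      rw [Units.val_zpow_eq_zpow_val, map_zpow₀, ← hu]
      exact he
    apply hcon
    refine ⟨u, ?_, hu⟩
    obtain ⟨n, hn, hvn⟩ := hv
    rw [← h1, ← zpow_natCast, ← zpow_mul] at hvn
    refine ⟨(m 0 * n).natAbs, Int.natAbs_pos.2 (mul_ne_zero hm0 (by exact_mod_cast hn.ne')), ?_⟩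
    rcases Int.natAbs_eq (m 0 * n) with h | h
    · rw [h, zpow_natCast] at hvn
      exact hvn
    · rw [h, zpow_neg, zpow_natCast] at hvn
      exact (Subgroup.inv_mem_iff Γ).1 hvn
  have h2 := prods_lt (by rw [Complex.exp_add]; exact hmem :
    Complex.exp (x 0 + x 1 * (l + w)) ∈ Prods)
  have h3 := hmain (fun _ => α) (fun _ => hα) hind (fun _ => l) (fun _ => hl) (A 0) Q
    (fun _ => A 1) (hA 0) hQ (fun _ => hA 1) hQ0 (by
      rw [Fin.sum_univ_one]
      have e0 := hx 0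
      have e1 := hx 1
      rw [← e0, ← e1]
      exact h2) 0
  obtain ⟨c, hc⟩ := h3
  apply htr
  rw [hx 1, hc]
  exact mem_algebraicClosure_iff.1 c.2

/-- values of rational functions -/
theorem values {r : ℕ} (t : Fin r → ℂ) (D : ℕ) (w : ℂ) (K : IntermediateField ℚ ℂ)
    [FiniteDimensional ℚ K] (d : ℕ) (hd : 1 ≤ d) (A B : Polynomial ℂ) (hA : A ∈ AlgPoly)
    (hB : B ∈ AlgPoly) (hAB : IsCoprime A B) (m m' : ℕ) (hm0 : 1 ≤ m) (hm0' : 1 ≤ m')
    (hm : ZerosLe A B m) (hm' : ZerosLe B A m') (ε : ℝ) (hε : 0 < ε) :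
    ∃ C : ℝ, ∀ z ∈ DegLe K d, A.eval z ≠ 0 → B.eval z ≠ 0 → ∀ δ : ℂ,
      δ * (A.eval z / B.eval z) ∈ Exc t D w →
      (max (A.natDegree : ℝ) B.natDegree - 2 * d * (m * m' / (m + m')) - ε) * ht z - C ≤ ht δ := by
  obtain ⟨Γ, hΓ, hexc⟩ := exc_hull t D w
  obtain ⟨C, -, hC⟩ := Pool.Agent.H594.WI.one_height Γ hΓ K d hd A B hA.2 hB.2 hA.1 hB.1 hAB m m'
    hm0 hm0' hm.1 hm.2 hm'.1 hm'.2 ε hε
  refine ⟨C, fun z hz hAz hBz δ hδ => ?_⟩
  obtain ⟨u, hu, he⟩ := hexc _ hδ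
  exact hC z hz hAz hBz u hu δ he

/-- values of polynomials at algebraic integers -/
theorem values_int {r : ℕ} (t : Fin r → ℂ) (D : ℕ) (w : ℂ) (K : IntermediateField ℚ ℂ)
    [FiniteDimensional ℚ K] (d : ℕ) (hd : 1 ≤ d) (A : Polynomial ℂ) (hA : A ∈ AlgPoly)
    (m : ℕ) (hm0 : 1 ≤ m) (hm : ∀ a, A.rootMultiplicity a ≤ m) (ε : ℝ) (hε : 0 < ε) :
    ∃ C : ℝ, ∀ z ∈ DegLe K d, IsIntegral ℤ z → A.eval z ≠ 0 → ∀ δ : ℂ,
      δ * A.eval z ∈ Exc t D w →
      (A.natDegree - (2 * d - 1) * m - ε) * ht z - C ≤ ht δ := by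
  obtain ⟨Γ, hΓ, hexc⟩ := exc_hull t D w
  obtain ⟨C, -, hC⟩ := Pool.Agent.H594.WI.poly_height Γ hΓ K d hd A hA.2 hA.1 m hm0 hm ε hε
  refine ⟨C, fun z hz hzi hAz δ hδ => ?_⟩
  obtain ⟨u, hu, he⟩ := hexc _ hδ
  exact hC z hz hzi hAz u hu δ he

/-- from height inequalities to finiteness -/
theorem finite_of (K : IntermediateField ℚ ℂ) [FiniteDimensional ℚ K] (d : ℕ) (c κ C : ℝ)
    (h : κ < c) (S : Set ℂ) (hS : ∀ z ∈ S, z ∈ DegLe K d ∧ ∃ x : ℝ, c * ht z - C ≤ x ∧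
      x ≤ κ * ht z) : S.Finite := by
  refine (Pool.Agent.H594.WI.northcott_cx K d (C / (c - κ))).subset ?_
  intro z hz
  obtain ⟨h1, x, h2, h3⟩ := hS z hz
  refine ⟨h1, ?_⟩
  have h4 : 0 < c - κ := sub_pos.2 h
  rw [← ht_eq, le_div_iff₀ h4]
  linarith

theorem pi_tr : Transcendental ℚ (((pi : ℝ) : ℂ)) :=
  Pool.Agent.HP778.ofReal_transcendental transcendental_pi

/-- the powers of multiples of `π` -/
theorem exc_pi {J : ℕ} {z : ℂ} (hz : IsAlgebraic ℚ z) (h : ¬ AllTranscendental J z) :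
    z ∈ Exc (fun _ : Fin 1 => ((pi : ℝ) : ℂ)) J ((Real.log pi : ℝ) : ℂ) := by
  unfold AllTranscendental at h
  push Not at h
  obtain ⟨β, hβ, hβ0, j, hj1, hjJ, l, hl, htr⟩ := h
  have halg := not_not.1 htr
  refine ⟨hz, l, hl, ![0, β * ((pi : ℝ) : ℂ) ^ j], ⟨![0, MvPolynomial.C
    (⟨β, mem_algebraicClosure_iff.2 hβ⟩ : algebraicClosure ℚ ℂ) * MvPolynomial.X 0 ^ j], 1, ?_,
    by simp, by simp, ?_⟩, ?_, ?_⟩
  · intro i i'
    fin_cases i
    · simp
    · show MvPolynomial.degreeOf i' (MvPolynomial.C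
        (⟨β, mem_algebraicClosure_iff.2 hβ⟩ : algebraicClosure ℚ ℂ) * MvPolynomial.X 0 ^ j) ≤ J
      refine (MvPolynomial.degreeOf_C_mul_le _ _ _).trans ?_
      refine (MvPolynomial.degreeOf_pow_le _ _ _).trans ?_
      rw [MvPolynomial.degreeOf_X]
      split_ifs <;> omega
  · intro i
    fin_cases i
    · simp
    · show β * ((pi : ℝ) : ℂ) ^ j = MvPolynomial.aeval (fun _ : Fin 1 => ((pi : ℝ) : ℂ))
        (MvPolynomial.C (⟨β, mem_algebraicClosure_iff.2 hβ⟩ : algebraicClosure ℚ ℂ) *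
          MvPolynomial.X 0 ^ j) / MvPolynomial.aeval (fun _ : Fin 1 => ((pi : ℝ) : ℂ)) 1
      rw [map_one, div_one, map_mul, map_pow, MvPolynomial.aeval_C, MvPolynomial.aeval_X]
      rfl
  · show Transcendental ℚ (β * ((pi : ℝ) : ℂ) ^ j)
    intro h1
    apply pi_tr
    have h2 : ((pi : ℝ) : ℂ) ^ j = β⁻¹ * (β * ((pi : ℝ) : ℂ) ^ j) := by
      rw [← mul_assoc, inv_mul_cancel₀ hβ0, one_mul]
    have h3 : IsAlgebraic ℚ (((pi : ℝ) : ℂ) ^ j) := by
      rw [h2]
      exact hβ.inv.mul h1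
    exact (IsAlgebraic.of_pow (by omega) h3)
  · show Complex.exp 0 * Complex.exp (β * ((pi : ℝ) : ℂ) ^ j * (l + ((Real.log pi : ℝ) : ℂ))) ∈ Prods
    rw [Complex.exp_zero, one_mul]
    exact alg_prods halg (Complex.exp_ne_zero _)

theorem pi_values (J : ℕ) (K : IntermediateField ℚ ℂ)
    [FiniteDimensional ℚ K] (d : ℕ) (hd : 1 ≤ d) (A B : Polynomial ℂ) (hA : A ∈ AlgPoly)
    (hB : B ∈ AlgPoly) (hAB : IsCoprime A B) (m m' : ℕ) (hm0 : 1 ≤ m) (hm0' : 1 ≤ m')
    (hm : ZerosLe A B m) (hm' : ZerosLe B A m') (κ : ℝ)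
    (hκ : κ < max (A.natDegree : ℝ) B.natDegree - 2 * d * (m * m' / (m + m'))) :
    {z : ℂ | z ∈ DegLe K d ∧ A.eval z ≠ 0 ∧ B.eval z ≠ 0 ∧ ∃ δ : ℂ, IsAlgebraic ℚ δ ∧ δ ≠ 0 ∧
      ht δ ≤ κ * ht z ∧ ¬ AllTranscendental J (δ * (A.eval z / B.eval z))}.Finite := by
  set M : ℝ := max (A.natDegree : ℝ) B.natDegree - 2 * d * (m * m' / (m + m')) with hM
  obtain ⟨C, hC⟩ := values (fun _ : Fin 1 => ((pi : ℝ) : ℂ)) J ((Real.log pi : ℝ) : ℂ) K d hd A B
    hA hB hAB m m' hm0 hm0' hm hm' ((M - κ) / 2) (by linarith)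
  refine finite_of K d (M - (M - κ) / 2) κ C (by linarith) _ ?_
  rintro z ⟨hz, hAz, hBz, δ, hδ, hδ0, hle, hno⟩
  refine ⟨hz, ht δ, ?_, hle⟩
  have halg : IsAlgebraic ℚ (δ * (A.eval z / B.eval z)) := by
    have hz' : IsAlgebraic ℚ z := degLe_alg (K := K) (d := d) hz
    have hev : ∀ P : Polynomial ℂ, (∀ i, IsAlgebraic ℚ (P.coeff i)) → IsAlgebraic ℚ (P.eval z) := by
      intro P hP
      rw [Polynomial.eval_eq_sum_range]
      exact Finset.sum_induction _ (IsAlgebraic ℚ) (fun a b ha hb => ha.add hb) isAlgebraic_zero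
        fun i _ => (hP i).mul (hz'.pow i)
    refine hδ.mul ?_
    rw [div_eq_mul_inv]
    exact (hev _ hA.2).mul (hev _ hB.2).inv
  exact hC z hz hAz hBz δ (exc_pi halg hno)

theorem pi_values_int (J : ℕ) (K : IntermediateField ℚ ℂ)
    [FiniteDimensional ℚ K] (d : ℕ) (hd : 1 ≤ d) (A : Polynomial ℂ) (hA : A ∈ AlgPoly)
    (m : ℕ) (hm0 : 1 ≤ m) (hm : ∀ a, A.rootMultiplicity a ≤ m) (κ : ℝ)
    (hκ : κ < A.natDegree - (2 * d - 1) * m) :
    {z : ℂ | z ∈ DegLe K d ∧ IsIntegral ℤ z ∧ A.eval z ≠ 0 ∧ ∃ δ : ℂ, IsAlgebraic ℚ δ ∧ δ ≠ 0 ∧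
      ht δ ≤ κ * ht z ∧ ¬ AllTranscendental J (δ * A.eval z)}.Finite := by
  set M : ℝ := A.natDegree - (2 * d - 1) * m with hM
  obtain ⟨C, hC⟩ := values_int (fun _ : Fin 1 => ((pi : ℝ) : ℂ)) J ((Real.log pi : ℝ) : ℂ) K d hd A
    hA m hm0 hm ((M - κ) / 2) (by linarith)
  refine finite_of K d (M - (M - κ) / 2) κ C (by linarith) _ ?_
  rintro z ⟨hz, hzi, hAz, δ, hδ, hδ0, hle, hno⟩
  refine ⟨hz, ht δ, ?_, hle⟩
  have halg : IsAlgebraic ℚ (δ * A.eval z) := by
    have hz' : IsAlgebraic ℚ z := degLe_alg (K := K) (d := d) hz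
    refine hδ.mul ?_
    rw [Polynomial.eval_eq_sum_range]
    exact Finset.sum_induction _ (IsAlgebraic ℚ) (fun a b ha hb => ha.add hb) isAlgebraic_zero
      fun i _ => (hA.2 i).mul (hz'.pow i)
  exact hC z hz hzi hAz δ (exc_pi halg hno)

/-- the polynomial `X (X + 1) ⋯ (X + k - 1)` -/
noncomputable def rising (k : ℕ) : Polynomial ℂ :=
  ∏ i ∈ Finset.range k, (Polynomial.X - Polynomial.C (-(i : ℂ)))

theorem rising_deg (k : ℕ) : (rising k).natDegree = k := by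
  unfold rising
  rw [Polynomial.natDegree_prod_of_monic _ _ fun _ _ => Polynomial.monic_X_sub_C _]
  simp only [Polynomial.natDegree_X_sub_C, Finset.sum_const, Finset.card_range, smul_eq_mul,
    mul_one]

theorem rising_ne (k : ℕ) : rising k ≠ 0 :=
  (Polynomial.monic_prod_of_monic _ _ fun i _ => Polynomial.monic_X_sub_C _).ne_zero

theorem rising_mult (k : ℕ) (a : ℂ) : (rising k).rootMultiplicity a ≤ 1 := by
  classical
  rw [← Polynomial.count_roots]
  have h1 : (rising k).roots = (Finset.range k).val.map (fun i : ℕ => -(i : ℂ)) := by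
    unfold rising
    exact Polynomial.roots_multiset_prod_X_sub_C ((Finset.range k).val.map (fun i : ℕ => -(i : ℂ))) ▸ by
      rw [Multiset.map_map]
      rfl
  rw [h1]
  refine Multiset.nodup_iff_count_le_one.1 ?_ a
  refine (Finset.range k).nodup.map ?_
  intro i j hij
  exact Nat.cast_injective (neg_injective hij)

theorem rising_eval (k : ℕ) (x : ℂ) : (rising k).eval x = ∏ i ∈ Finset.range k, (x + i) := by
  unfold rising
  rw [Polynomial.eval_prod]
  refine Finset.prod_congr rfl fun i _ => ?_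
  simp

theorem rising_alg (k : ℕ) : rising k ∈ AlgPoly := by
  refine ⟨rising_ne k, fun i => ?_⟩
  have h1 : rising k = (∏ i ∈ Finset.range k, ((Polynomial.X : Polynomial ℚ) -
      Polynomial.C (-(i : ℚ)))).map (algebraMap ℚ ℂ) := by
    unfold rising
    rw [Polynomial.map_prod]
    refine Finset.prod_congr rfl fun i _ => ?_
    simp
  rw [h1, Polynomial.coeff_map]
  exact isAlgebraic_algebraMap _

theorem alg_of_complex {x : ℝ} (h : IsAlgebraic ℚ (x : ℂ)) : IsAlgebraic ℚ x :=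
  (isAlgebraic_algebraMap_iff (A := ℂ) Complex.ofReal_injective).1 h

/-- real powers -/
theorem real_powers {a : ℝ} (ha : 0 < a) (halg : IsAlgebraic ℚ a) (h : AllTranscendental 1 (a : ℂ)) :
    Transcendental ℚ ((a * pi) ^ (a * pi)) ∧ Transcendental ℚ ((a * pi) ^ pi) := by
  have hap : 0 < a * pi := mul_pos ha Real.pi_pos
  have hexp : Complex.exp ((Real.log a : ℝ) : ℂ) = (a : ℂ) := by
    rw [← Complex.ofReal_exp, Real.exp_log ha]
  have key : ∀ β : ℝ, IsAlgebraic ℚ β → β ≠ 0 → Transcendental ℚ ((a * pi) ^ (β * pi)) := by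
    intro β hβ hβ0 hcon
    have h1 := h (β : ℂ) hβ.algebraMap (Complex.ofReal_ne_zero.2 hβ0) 1 le_rfl le_rfl _ hexp
    apply h1
    have h2 : Complex.exp ((β : ℂ) * ((pi : ℝ) : ℂ) ^ 1 * (((Real.log a : ℝ) : ℂ) +
        ((Real.log pi : ℝ) : ℂ))) = (((a * pi) ^ (β * pi) : ℝ) : ℂ) := by
      rw [Real.rpow_def_of_pos hap, Real.log_mul ha.ne' Real.pi_pos.ne', pow_one]
      push_cast
      congr 1
      ring
    rw [h2]
    exact hcon.algebraMap
  refine ⟨key a halg ha.ne', ?_⟩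
  have h3 := key 1 isAlgebraic_one one_ne_zero
  rwa [one_mul] at h3

theorem nat_deg (n : ℕ) : (n : ℂ) ∈ DegLe ⊥ 1 := by
  refine ⟨Polynomial.X - Polynomial.C (n : ℂ), Polynomial.X_sub_C_ne_zero _, ?_, fun i => ?_, ?_⟩
  · rw [Polynomial.natDegree_X_sub_C]
  · rw [Polynomial.coeff_sub, Polynomial.coeff_X, Polynomial.coeff_C]
    refine IntermediateField.sub_mem _ ?_ ?_
    · split_ifs
      · exact IntermediateField.one_mem _
      · exact IntermediateField.zero_mem _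
    · split_ifs
      · exact natCast_mem _ n
      · exact IntermediateField.zero_mem _
  · simp

/-- products of consecutive integers -/
theorem consecutive (k : ℕ) (κ : ℝ) (hκ : κ < k - 1) : ∃ N : ℕ, ∀ n : ℕ, N ≤ n → ∀ δ : ℝ, 0 < δ →
    IsAlgebraic ℚ δ → ht (δ : ℂ) ≤ κ * Real.log n →
      Transcendental ℚ ((δ * (∏ i ∈ Finset.range k, ((n : ℝ) + i)) * pi) ^
        (δ * (∏ i ∈ Finset.range k, ((n : ℝ) + i)) * pi)) ∧
      Transcendental ℚ ((δ * (∏ i ∈ Finset.range k, ((n : ℝ) + i)) * pi) ^ pi) := by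
  have hfin := pi_values_int 1 ⊥ 1 le_rfl (rising k) (rising_alg k) 1 le_rfl (rising_mult k) κ (by
    rw [rising_deg]
    push_cast
    linarith)
  have hfin2 := hfin.preimage (f := fun n : ℕ => (n : ℂ)) (fun a _ b _ h => Nat.cast_injective h)
  obtain ⟨N, hN⟩ := hfin2.bddAbove
  refine ⟨N + 1, fun n hn δ hδ hδa hle => ?_⟩
  have hn0 : (0 : ℝ) < n := by
    have : 0 < n := by omega
    exact_mod_cast this
  have hpos : 0 < ∏ i ∈ Finset.range k, ((n : ℝ) + i) :=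
    Finset.prod_pos fun i _ => by positivity
  have hev : (((∏ i ∈ Finset.range k, ((n : ℝ) + i)) : ℝ) : ℂ) = (rising k).eval (n : ℂ) := by
    rw [rising_eval]
    push_cast
    rfl
  have hpa : IsAlgebraic ℚ (∏ i ∈ Finset.range k, ((n : ℝ) + i)) := by
    have : (∏ i ∈ Finset.range k, ((n : ℝ) + i)) =
        (((∏ i ∈ Finset.range k, (n + i)) : ℕ) : ℝ) := by push_cast; rfl
    rw [this]
    exact isAlgebraic_natCast _
  refine real_powers (mul_pos hδ hpos) (hδa.mul hpa) ?_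
  by_contra hno
  have hmem : n ∈ (fun n : ℕ => (n : ℂ)) ⁻¹' {z : ℂ | z ∈ DegLe ⊥ 1 ∧ IsIntegral ℤ z ∧
      (rising k).eval z ≠ 0 ∧ ∃ δ : ℂ, IsAlgebraic ℚ δ ∧ δ ≠ 0 ∧
      ht δ ≤ κ * ht z ∧ ¬ AllTranscendental 1 (δ * (rising k).eval z)} := by
    refine ⟨nat_deg n, isIntegral_natCast n, ?_, (δ : ℂ), hδa.algebraMap,
      Complex.ofReal_ne_zero.2 hδ.ne', ?_, ?_⟩
    · rw [← hev]
      exact Complex.ofReal_ne_zero.2 hpos.ne'
    · rw [ht_nat (by omega)]
      exact hle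
    · rw [← hev, ← Complex.ofReal_mul]
      exact hno
  have h1 := hN hmem
  omega

/-- the number `1 / log 2` -/
noncomputable def t0 : Fin 1 → ℂ := fun _ => ((Real.log 2 : ℝ) : ℂ)⁻¹

/-- the powers of `2` are exceptional for `1 / log 2` -/
theorem two_exc (j : ℕ) : ((2 : ℂ) ^ j) ∈ Exc t0 1 0 := by
  have hl : ((Real.log 2 : ℝ) : ℂ) ≠ 0 := Complex.ofReal_ne_zero.2 (Real.log_pos one_lt_two).ne'
  have he : Complex.exp ((Real.log 2 : ℝ) : ℂ) = 2 := by
    rw [← Complex.ofReal_exp, Real.exp_log two_pos]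
    norm_num
  have htr : Transcendental ℚ ((Real.log 2 : ℝ) : ℂ) :=
    Pool.Agent.H594.KP.transcendental_of_exp hl (by
      rw [he]
      exact isAlgebraic_natCast 2)
  refine ⟨(isAlgebraic_natCast 2).pow j, j * ((Real.log 2 : ℝ) : ℂ), ?_,
    ![0, ((Real.log 2 : ℝ) : ℂ)⁻¹], ⟨![0, MvPolynomial.X 0], 1, ?_, by simp, by simp, ?_⟩, ?_, ?_⟩
  · rw [Complex.exp_nat_mul, he]
  · intro i i'
    fin_cases i
    · simp
    · show MvPolynomial.degreeOf i' (MvPolynomial.X 0 :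
        MvPolynomial (Fin 1) (algebraicClosure ℚ ℂ)) ≤ 1
      rw [MvPolynomial.degreeOf_X]
      split_ifs <;> simp
  · intro i
    fin_cases i
    · simp
    · show ((Real.log 2 : ℝ) : ℂ)⁻¹ = MvPolynomial.aeval t0 (MvPolynomial.X 0 :
        MvPolynomial (Fin 1) (algebraicClosure ℚ ℂ)) / MvPolynomial.aeval t0
        (1 : MvPolynomial (Fin 1) (algebraicClosure ℚ ℂ))
      rw [map_one, div_one, MvPolynomial.aeval_X]
      rfl
  · show Transcendental ℚ (((Real.log 2 : ℝ) : ℂ)⁻¹)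
    intro h
    apply htr
    have := h.inv
    rwa [inv_inv] at this
  · show Complex.exp 0 * Complex.exp (((Real.log 2 : ℝ) : ℂ)⁻¹ * (j * ((Real.log 2 : ℝ) : ℂ) + 0)) ∈
      Prods
    have e1 : ((Real.log 2 : ℝ) : ℂ)⁻¹ * (j * ((Real.log 2 : ℝ) : ℂ) + 0) = (j : ℂ) := by
      field_simp
      ring
    rw [e1, Complex.exp_zero, one_mul]
    refine ⟨(j : ℂ), ?_, rfl⟩
    have h1 : (1 : ℂ) ∈ LogForms := Submodule.subset_span (Or.inl rfl)
    have h2 := LogForms.smul_mem (j : algebraicClosure ℚ ℂ) h1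
    have h3 : (j : algebraicClosure ℚ ℂ) • (1 : ℂ) = (j : ℂ) := by
      rw [Algebra.smul_def, mul_one]
      exact map_natCast _ j
    rwa [h3] at h2

/-- the constant `k - 1` is the best possible one -/
theorem sharp (k : ℕ) (hk : 1 ≤ k) (κ : ℝ) (hκ : (k : ℝ) - 1 < κ) :
    {n : ℕ | ∃ δ : ℚ, 0 < δ ∧ ht (δ : ℂ) ≤ κ * Real.log n ∧
      (δ : ℂ) * ∏ i ∈ Finset.range k, ((n : ℂ) + i) ∈ Exc t0 1 0}.Infinite := by
  obtain ⟨k, rfl⟩ : ∃ k', k = k' + 1 := ⟨k - 1, by omega⟩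
  push_cast at hκ
  have hκ' : 0 < κ - k := by linarith
  obtain ⟨J, hJ⟩ := exists_nat_gt (k / (κ - k))
  have hinf : (Set.Ici (J + k + 1)).Infinite := Set.Ici_infinite _
  refine (hinf.image (f := fun j : ℕ => 2 ^ j) (fun a _ b _ h =>
    Nat.pow_right_injective le_rfl h)).mono ?_
  rintro _ ⟨j, hj, rfl⟩
  have hj' : J + k + 1 ≤ j := hj
  have hjk : k ≤ 2 ^ j := by
    have : j < 2 ^ j := Nat.lt_two_pow_self
    omega
  set n : ℕ := 2 ^ j with hn
  have hn0 : 0 < n := by positivity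
  have hlogn : Real.log n = j * Real.log 2 := by
    rw [hn]
    push_cast
    rw [Real.log_pow]
  have hl2 : 0 < Real.log 2 := Real.log_pos one_lt_two
  let Q : ℕ := ∏ i ∈ Finset.range k, (n + (i + 1))
  have hQ0 : 0 < Q := Finset.prod_pos fun i _ => by omega
  have hQle : Q ≤ (2 * n) ^ k := by
    have h1 : Q ≤ ∏ i ∈ Finset.range k, (2 * n) := by
      refine Finset.prod_le_prod' fun i hi => ?_
      rw [Finset.mem_range] at hi
      omega
    rwa [Finset.prod_const, Finset.card_range] at h1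
  have hprod : ∏ i ∈ Finset.range (k + 1), ((n : ℂ) + i) = (Q : ℂ) * n := by
    have hQc : (Q : ℂ) = ∏ i ∈ Finset.range k, ((n : ℂ) + ((i : ℂ) + 1)) := by
      simp only [Q]
      push_cast
      rfl
    rw [Finset.prod_range_succ', hQc]
    push_cast
    rw [add_zero]
  refine ⟨(Q : ℚ)⁻¹, by positivity, ?_, ?_⟩
  · have h1 : ht (((Q : ℚ)⁻¹ : ℚ) : ℂ) = Real.log Q := by
      rw [ht_rat, Height.logHeight₁_inv]
      have : NeZero Q := ⟨hQ0.ne'⟩
      exact Rat.logHeight₁_natCast Q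
    rw [h1, hlogn]
    have h2 : Real.log Q ≤ k * (Real.log 2 + j * Real.log 2) := by
      have h3 : (Q : ℝ) ≤ (2 * n) ^ k := by exact_mod_cast hQle
      refine (Real.log_le_log (by exact_mod_cast hQ0) h3).trans ?_
      rw [Real.log_pow, Real.log_mul two_ne_zero (by exact_mod_cast hn0.ne'), hlogn]
    refine h2.trans ?_
    have h4 : (k : ℝ) ≤ (κ - k) * j := by
      have h5 : (J : ℝ) ≤ j := by exact_mod_cast (by omega : J ≤ j)
      rw [div_lt_iff₀ hκ'] at hJ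
      nlinarith
    nlinarith
  · rw [hprod]
    have h1 : (((Q : ℚ)⁻¹ : ℚ) : ℂ) * ((Q : ℂ) * (n : ℂ)) = 2 ^ j := by
      have hQc : (Q : ℂ) ≠ 0 := by exact_mod_cast hQ0.ne'
      push_cast
      rw [← mul_assoc, inv_mul_cancel₀ hQc, one_mul, hn]
      push_cast
      rfl
    rw [h1]
    exact two_exc j

/-- **Main result.** (0) `ht` is the absolute logarithmic height. (1) The height inequality for the
factors `δ` which map a value of a rational function to an exceptional multiplier. (2) The height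
inequality for polynomials and algebraic integers. (3), (4) The same for the powers
`(δ f(z) π) ^ (β π ^ j)`. (5) Products of consecutive integers. (6) The constant `k - 1` is the best
possible one: `t0` is `1 / log 2`. (7) `Prods` contains the nonzero algebraic numbers. -/
theorem result :
    -- (0)
    (∀ (L : Type) [Field L] [NumberField L] (φ : L →+* ℂ) (y : L),
      ht (φ y) = Height.logHeight₁ y / Module.finrank ℚ L) ∧
    -- (1)
    (∀ (r D : ℕ) (t : Fin r → ℂ) (w : ℂ) (K : IntermediateField ℚ ℂ), FiniteDimensional ℚ K →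
      ∀ d : ℕ, 1 ≤ d → ∀ A ∈ AlgPoly, ∀ B ∈ AlgPoly, IsCoprime A B → ∀ m m' : ℕ, 1 ≤ m → 1 ≤ m' →
      ZerosLe A B m → ZerosLe B A m' → ∀ ε : ℝ, 0 < ε → ∃ C : ℝ,
      ∀ z ∈ DegLe K d, A.eval z ≠ 0 → B.eval z ≠ 0 → ∀ δ : ℂ,
        δ * (A.eval z / B.eval z) ∈ Exc t D w →
        (max (A.natDegree : ℝ) B.natDegree - 2 * d * (m * m' / (m + m')) - ε) * ht z - C ≤ ht δ) ∧
    -- (2)
    (∀ (r D : ℕ) (t : Fin r → ℂ) (w : ℂ) (K : IntermediateField ℚ ℂ), FiniteDimensional ℚ K →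
      ∀ d : ℕ, 1 ≤ d → ∀ A ∈ AlgPoly, ∀ m : ℕ, 1 ≤ m → (∀ a, A.rootMultiplicity a ≤ m) →
      ∀ ε : ℝ, 0 < ε → ∃ C : ℝ, ∀ z ∈ DegLe K d, IsIntegral ℤ z → A.eval z ≠ 0 → ∀ δ : ℂ,
        δ * A.eval z ∈ Exc t D w → (A.natDegree - (2 * d - 1) * m - ε) * ht z - C ≤ ht δ) ∧
    -- (3)
    (∀ (J : ℕ) (K : IntermediateField ℚ ℂ), FiniteDimensional ℚ K → ∀ d : ℕ, 1 ≤ d →
      ∀ A ∈ AlgPoly, ∀ B ∈ AlgPoly, IsCoprime A B → ∀ m m' : ℕ, 1 ≤ m → 1 ≤ m' →
      ZerosLe A B m → ZerosLe B A m' → ∀ κ : ℝ,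
      κ < max (A.natDegree : ℝ) B.natDegree - 2 * d * (m * m' / (m + m')) →
      {z : ℂ | z ∈ DegLe K d ∧ A.eval z ≠ 0 ∧ B.eval z ≠ 0 ∧ ∃ δ : ℂ, IsAlgebraic ℚ δ ∧ δ ≠ 0 ∧
        ht δ ≤ κ * ht z ∧ ¬ AllTranscendental J (δ * (A.eval z / B.eval z))}.Finite) ∧
    -- (4)
    (∀ (J : ℕ) (K : IntermediateField ℚ ℂ), FiniteDimensional ℚ K → ∀ d : ℕ, 1 ≤ d →
      ∀ A ∈ AlgPoly, ∀ m : ℕ, 1 ≤ m → (∀ a, A.rootMultiplicity a ≤ m) → ∀ κ : ℝ,
      κ < A.natDegree - (2 * d - 1) * m →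
      {z : ℂ | z ∈ DegLe K d ∧ IsIntegral ℤ z ∧ A.eval z ≠ 0 ∧ ∃ δ : ℂ, IsAlgebraic ℚ δ ∧ δ ≠ 0 ∧
        ht δ ≤ κ * ht z ∧ ¬ AllTranscendental J (δ * A.eval z)}.Finite) ∧
    -- (5)
    (∀ (k : ℕ) (κ : ℝ), κ < k - 1 → ∃ N : ℕ, ∀ n : ℕ, N ≤ n → ∀ δ : ℝ, 0 < δ →
      IsAlgebraic ℚ δ → ht (δ : ℂ) ≤ κ * Real.log n →
      Transcendental ℚ ((δ * (∏ i ∈ Finset.range k, ((n : ℝ) + i)) * pi) ^
        (δ * (∏ i ∈ Finset.range k, ((n : ℝ) + i)) * pi)) ∧
      Transcendental ℚ ((δ * (∏ i ∈ Finset.range k, ((n : ℝ) + i)) * pi) ^ pi)) ∧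
    -- (6)
    (∀ (k : ℕ), 1 ≤ k → ∀ κ : ℝ, (k : ℝ) - 1 < κ →
      {n : ℕ | ∃ δ : ℚ, 0 < δ ∧ ht (δ : ℂ) ≤ κ * Real.log n ∧
        (δ : ℂ) * ∏ i ∈ Finset.range k, ((n : ℂ) + i) ∈ Exc t0 1 0}.Infinite) ∧
    -- (7)
    (∀ x : ℂ, IsAlgebraic ℚ x → x ≠ 0 → x ∈ Prods) := by
  refine ⟨fun L _ _ φ y => ht_field L φ y, ?_, ?_, ?_, ?_, consecutive, sharp,
    fun _ hx hx0 => alg_prods hx hx0⟩
  · intro r D t w K hK d hd A hA B hB hAB m m' hm0 hm0' hm hm' ε hε
    exact values t D w K d hd A B hA hB hAB m m' hm0 hm0' hm hm' ε hε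
  · intro r D t w K hK d hd A hA m hm0 hm ε hε
    exact values_int t D w K d hd A hA m hm0 hm ε hε
  · intro J K hK d hd A hA B hB hAB m m' hm0 hm0' hm hm' κ hκ
    exact pi_values J K d hd A B hA hB hAB m m' hm0 hm0' hm hm' κ hκ
  · intro J K hK d hd A hA m hm0 hm κ hκ
    exact pi_values_int J K d hd A hA m hm0 hm κ hκ

end Pool.Agent.Results.MP_4c2ad3_nt.MultiplesOfSmallHeight
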