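import Pool.Agent.H608.Ge.PiSer
import Pool.Agent.H608.Ge.Tower
import Pool.Agent.H608.Ge.Omit
import Pool.Agent.H608.Ge.Jn
import Mathlib

/-!
# The towers `π, π ^ π, π ^ (π ^ π), …`, with very few omitted terms in Leibniz's series

Leibniz's series is `π = ∑ (4 / (4 k + 1) - 4 / (4 k + 3))`, `k ≥ 0`. For a set `E` of positive integers let `π_E`
be this series without the terms with `k ∈ E`. There are sets `E` with at most `C log log log K` elements up to
`K` such that the numbers `π_E, π_E ^ π_E, π_E ^ (π_E ^ π_E), …` are algebraically independent over any given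
countable ring `R` of real numbers (for instance the ring generated by `π`, `π ^ π` and all real algebraic
numbers), and all nonconstant polynomials in these numbers with coefficients in `R` are normal in every integer
base.
-/

set_option autoImplicit false

namespace Pool.Agent.Results.MP_4c2ad3_nt.TowersOfPowers

open Finset Filter Topology Metric
open Pool.Agent.H608.Sp Pool.Agent.H608.Ge

/-- the digit of `x` in base `b` at position `i` after the point -/
noncomputable def digit (b : ℕ) (x : ℝ) (i : ℕ) : ℤ := ⌊x * (b : ℝ) ^ i⌋ % (b : ℤ)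

open Classical in
/-- the tuple `x` is jointly normal in base `b`: every digit matrix with `n` rows and `m` columns
occurs along the positions with limiting frequency `b ^ (-(m * n))` -/
def JointlyNormal (b : ℕ) {n : ℕ} (x : Fin n → ℝ) : Prop :=
  ∀ m : ℕ, 1 ≤ m → ∀ D : Fin n → Fin m → Fin b,
    Tendsto (fun N : ℕ => (((Icc 1 N).filter fun i : ℕ =>
      ∀ (j : Fin n) (t : Fin m), digit b (x j) (i + (t : ℕ)) = ((D j t : ℕ) : ℤ)).card : ℝ) / (N : ℝ))
      atTop (𝓝 (1 / (b : ℝ) ^ (m * n)))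

/-- `A` has at least `H exp (- (log H) ^ (2 / 5))` elements in `[H, 2 H)`, for all large `H` -/
def NotTooSparse (A : Set ℕ) : Prop :=
  ∀ᶠ H : ℕ in atTop, H * Real.exp (-(Real.log H) ^ (2 / 5 : ℝ)) ≤
    (({k : ℕ | k ∈ A ∧ H ≤ k ∧ k < 2 * H}.ncard : ℕ) : ℝ)

open Classical in
/-- Leibniz's series for `π` without the pairs of terms with numbers in `E` -/
noncomputable def piE (E : Set ℕ) : ℝ :=
  ∑' k : ℕ, if k ∈ E then 0 else 4 / (4 * (k : ℝ) + 1) - 4 / (4 * (k : ℝ) + 3)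

/-- the towers `x, x ^ x, x ^ (x ^ x), …` for `x = π_E` -/
noncomputable def tower (E : Set ℕ) : ℕ → ℝ
  | 0 => piE E
  | n + 1 => piE E ^ tower E n

lemma jn_of_nt (b : ℕ) {n : ℕ} (x : Fin n → ℝ) (h : Pool.Agent.W206.ND.NT b x) :
    JointlyNormal b x := by
  intro m hm D
  have h1 := h m hm D
  refine h1.congr fun N => ?_
  congr 2

lemma piE_empty : piE ∅ = Real.pi := by
  unfold piE
  rw [← hasSum_up2_zero.tsum_eq]
  apply tsum_congr
  intro k
  rw [if_neg (Set.notMem_empty _)]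
  rfl

open Classical in
lemma piE_eq {E : Set ℕ} (h0 : 0 ∉ E) : piE E = 8 / 3 + ∑' n : ℕ, if n + 1 ∈ E then 0 else up2 (n + 1) := by
  have h1 : Summable fun k : ℕ => if k ∈ E then 0 else 4 / (4 * (k : ℝ) + 1) - 4 / (4 * (k : ℝ) + 3) := by
    refine (hasSum_up2_zero.summable.indicator {k | k ∉ E}).congr fun k => ?_
    simp only [Set.indicator, Set.mem_ofPred_eq]
    split_ifs <;> rfl
  unfold piE
  rw [h1.tsum_eq_zero_add, if_neg h0]
  congr 1
  · norm_num

open Classical in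
theorem result :
    -- without omitted terms the number is `π`
    piE ∅ = Real.pi ∧
    ∃ C : ℝ, 0 < C ∧ ∀ A : Set ℕ, NotTooSparse A → ∀ (M : ℕ) (r : ℝ), 0 < r → ∀ R : Subring ℝ, Countable R →
      ∃ E : Set ℕ, E ⊆ A ∧ (∀ m ∈ E, 1 ≤ m ∧ M ≤ m) ∧
        (∀ K : ℕ, 16 ≤ K → (({m : ℕ | m ∈ E ∧ m ≤ K}.ncard : ℕ) : ℝ) ≤
          C * Real.log (Real.log (Real.log K))) ∧
        |piE E - Real.pi| < r ∧
        AlgebraicIndependent R (tower E) ∧
        ∀ (n : ℕ) (P : Fin n → MvPolynomial ℕ R),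
          (∀ v : Fin n → ℤ, v ≠ 0 → ∀ c, ∑ j, v j • P j ≠ MvPolynomial.C c) →
          ∀ b : ℕ, 2 ≤ b → JointlyNormal b fun j => MvPolynomial.aeval (tower E) (P j) := by
  refine ⟨piE_empty, ?_⟩
  obtain ⟨C, hC, hmain⟩ := serOne
  refine ⟨C, hC, fun A hA M r hr R hR => ?_⟩
  have := countable_mv R
  have hpi := Real.pi_gt_three
  obtain ⟨r', hr'⟩ : ∃ r', r' = min r 1 := ⟨_, rfl⟩
  have hr0 : 0 < r' := by rw [hr']; exact lt_min hr one_pos
  have hr1 : r' ≤ 1 := by rw [hr']; exact min_le_right _ _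
  have hrr : r' ≤ r := by rw [hr']; exact min_le_left _ _
  -- the functions, shifted by the first term
  have hmaps : ∀ w ∈ ball ((serPi.x : ℝ) : ℂ) r', ((8 / 3 : ℝ) : ℂ) + w ∈ ball ((Real.pi : ℝ) : ℂ) r' := by
    intro w hw
    rw [mem_ball_iff_norm] at hw ⊢
    have e1 : ((8 / 3 : ℝ) : ℂ) + w - ((Real.pi : ℝ) : ℂ) = w - ((serPi.x : ℝ) : ℂ) := by
      show ((8 / 3 : ℝ) : ℂ) + w - ((Real.pi : ℝ) : ℂ) = w - (((Real.pi - 8 / 3 : ℝ)) : ℂ)
      push_cast
      ring
    rw [e1]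
    exact hw
  have hslit : ball ((Real.pi : ℝ) : ℂ) r' ⊆ Complex.slitPlane := ball_sub_slit (by linarith)
  obtain ⟨E, z, _, hEA, hEK, hl, hz, _, hfreq, _⟩ := hmain serPi serPi_ne r' hr0 A hA M
    (Set.range fun P : MvPolynomial ℕ R => fun w => FT R P (((8 / 3 : ℝ) : ℂ) + w))
    (Set.countable_range _) (by
      rintro _ ⟨P, rfl⟩
      exact ((FT_analytic R P).mono hslit).comp (analyticOnNhd_const.add analyticOnNhd_id) hmaps) (by
      rintro _ ⟨P, rfl⟩ a ha
      have h1 : (0 : ℝ) < 8 / 3 + a := by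
        have h2 : |a - (Real.pi - 8 / 3)| < r' := ha
        rw [abs_lt] at h2
        linarith
      have h2 : ((8 / 3 : ℝ) : ℂ) + (a : ℂ) = ((8 / 3 + a : ℝ) : ℂ) := by push_cast; rfl
      simp only
      rw [h2, FT_real R P h1, Complex.ofReal_im]) R hR
  have h0E : 0 ∉ E := fun h => by
    have := (hEA 0 h).2.2
    omega
  have e0 : z = ∑' n : ℕ, if n + 1 ∈ E then 0 else up2 (n + 1) :=
    tendsto_nhds_unique hl (tendsto_omit hasSum_up2 h0E)
  have e1 : piE E = 8 / 3 + z := by rw [piE_eq h0E, e0]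
  have hz' : |z - (Real.pi - 8 / 3)| < r' := hz
  have hcl : |piE E - Real.pi| < r' := by
    rw [e1]
    have : 8 / 3 + z - Real.pi = z - (Real.pi - 8 / 3) := by ring
    rw [this]
    exact hz'
  have hpos : 0 < piE E := by
    rw [abs_lt] at hcl
    linarith
  have ht : tower E = fun i => twr i (piE E) := by
    funext i
    induction i with
    | zero => rfl
    | succ i ih =>
      show piE E ^ tower E i = piE E ^ twr i (piE E)
      rw [ih]
  have hP : ∀ P : MvPolynomial ℕ R, (∀ c, P ≠ MvPolynomial.C c) → ∀ b : ℕ, 2 ≤ b → Freq b (ev R (tower E) P) := by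
    intro P hP b hb
    have h1 := hfreq _ ⟨P, rfl⟩ (by
      rintro ⟨c, hc⟩
      apply FT_const R P hP hr0 (show r' ≤ Real.pi by linarith)
      refine ⟨c, fun w hw => ?_⟩
      have h2 := hc (w - ((8 / 3 : ℝ) : ℂ)) (by
        rw [mem_ball_iff_norm] at hw ⊢
        have e2 : w - ((8 / 3 : ℝ) : ℂ) - ((serPi.x : ℝ) : ℂ) = w - ((Real.pi : ℝ) : ℂ) := by
          show w - ((8 / 3 : ℝ) : ℂ) - (((Real.pi - 8 / 3 : ℝ)) : ℂ) = w - ((Real.pi : ℝ) : ℂ)
          push_cast
          ring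
        rw [e2]
        exact hw)
      have h3 : ((8 / 3 : ℝ) : ℂ) + (w - ((8 / 3 : ℝ) : ℂ)) = w := by ring
      simp only at h2
      rw [h3] at h2
      exact h2) b hb
    have h2 : ((8 / 3 : ℝ) : ℂ) + (z : ℂ) = ((piE E : ℝ) : ℂ) := by rw [e1]; push_cast; rfl
    simp only at h1
    rw [h2, FT_real R P hpos, Complex.ofReal_re, ← ht] at h1
    exact h1
  exact ⟨E, fun k hk => (hEA k hk).1, fun k hk => ⟨(hEA k hk).2.2, (hEA k hk).2.1⟩, hEK, hcl.trans_le hrr,
    algInd_of_freq R _ hP, fun n P hP' b hb => jn_of_nt b _ (nt_of_poly R _ hP P hP' b hb)⟩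

end Pool.Agent.Results.MP_4c2ad3_nt.TowersOfPowers
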